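import Pool.Agent.helper62.VN.SpecE
import Pool.Agent.helper57.VQE.CLO

/-!
# Project VN (MP_07c750_an), block 5, row NCL: close fields have close averages
-/

set_option autoImplicit false

open scoped MatrixGroups ContDiff Topology UpperHalfPlane
open UpperHalfPlane MeasureTheory Filter Set

namespace Pool.Agent.VNE

open Pool.Agent.RS Pool.Agent.VQE

noncomputable section

theorem NCL_proof (h1 : VQE.NMB_stmt) : NCL_stmt := by
  intro K L T e hK hL hT he
  obtain ⟨κ, hκ⟩ : ∃ κ, κ = 4 * K + 3 := ⟨_, rfl⟩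
  have hκ1 : 1 ≤ κ := by linarith
  obtain ⟨ε, hε⟩ : ∃ ε, ε = min 1 (e / (L * Real.exp (κ * T) + 1)) := ⟨_, rfl⟩
  have hden : 0 < L * Real.exp (κ * T) + 1 := by positivity
  have hε0 : 0 < ε := by
    rw [hε]
    exact lt_min (by norm_num) (div_pos he hden)
  have hε1 : ε ≤ 1 := by
    rw [hε]
    exact min_le_left _ _
  have hε2 : ε * (L * Real.exp (κ * T) + 1) ≤ e := by
    have : ε ≤ e / (L * Real.exp (κ * T) + 1) := by
      rw [hε]
      exact min_le_right _ _
    rwa [le_div_iff₀ hden] at this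
  refine ⟨ε, hε0, ?_⟩
  intro Γ X p' q' f' h hF hf' hpp hqq hh g
  have hf := hF.flw
  -- the relative position
  have hnm : ∀ t ∈ Icc 0 T, nm ((X.f t g)⁻¹ * f' t g) ≤ ε / κ * (Real.exp (κ * t) - 1) := by
    have hD : ∀ t, HasDerivAt (fun s => CLO_V ((X.f s g)⁻¹ * f' s g))
        (CLO_V' ((X.f t g)⁻¹ * f' t g) (X.p (X.f t g)) (X.q (X.f t g)) (p' (f' t g)) (q' (f' t g))) t := fun t =>
      CLO_deriv (fun s => X.f s g) (fun s => f' s g) _ _ _ _ t (CLO_flw hf g t) (CLO_flw hf' g t)
    refine CLO_gron (fun s => X.f s g) (fun s => f' s g)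
      (fun t => CLO_V' ((X.f t g)⁻¹ * f' t g) (X.p (X.f t g)) (X.q (X.f t g)) (p' (f' t g)) (q' (f' t g))) T κ ε
      (by linarith) ?_ ?_ ?_ ?_
    · show X.f 0 g = f' 0 g
      rw [hf.zero, hf'.zero]
    · exact fun t _ => (hD t).continuousAt.continuousWithinAt
    · exact fun t _ => (hD t).hasDerivWithinAt
    · intro t _
      obtain ⟨E, hE⟩ : ∃ E, E = (X.f t g)⁻¹ * f' t g := ⟨_, rfl⟩
      have hE2 : f' t g = X.f t g * E := by rw [hE]; group
      have hn : 0 ≤ nm E := h1.1 E
      have hKi : 0 ≤ 1 / K := by positivity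
      have a1 : |X.p (X.f t g)| ≤ K := by
        have := hF.pb (X.f t g)
        rw [abs_le]
        constructor <;> linarith [this.1, this.2]
      have a2 : |X.q (X.f t g)| ≤ K := (hF.qb _).1
      have a3 : |X.p (X.f t g * E) - X.p (X.f t g)| ≤ K * nm E := (hF.lip _ _).1
      have a4 : |X.q (X.f t g * E) - X.q (X.f t g)| ≤ K * nm E := (hF.lip _ _).2.1
      have a5 := hpp (X.f t g * E)
      have a6 := hqq (X.f t g * E)
      have a7 : |X.p (X.f t g * E)| ≤ K := by
        have := hF.pb (X.f t g * E)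
        rw [abs_le]
        constructor <;> linarith [this.1, this.2]
      have a8 : |X.q (X.f t g * E)| ≤ K := (hF.qb _).1
      show ‖CLO_V' ((X.f t g)⁻¹ * f' t g) (X.p (X.f t g)) (X.q (X.f t g)) (p' (f' t g)) (q' (f' t g))‖ ≤
        κ * nm ((X.f t g)⁻¹ * f' t g) + ε
      rw [← hE, hE2]
      have b1 : |p' (X.f t g * E)| ≤ K + 1 := by
        have := abs_add_le (p' (X.f t g * E) - X.p (X.f t g * E)) (X.p (X.f t g * E))
        rw [sub_add_cancel] at this
        linarith
      have b2 : |q' (X.f t g * E)| ≤ K + 1 := by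
        have := abs_add_le (q' (X.f t g * E) - X.q (X.f t g * E)) (X.q (X.f t g * E))
        rw [sub_add_cancel] at this
        linarith
      have b3 : |p' (X.f t g * E) - X.p (X.f t g)| ≤ K * nm E + ε := by
        have := abs_add_le (p' (X.f t g * E) - X.p (X.f t g * E)) (X.p (X.f t g * E) - X.p (X.f t g))
        rw [sub_add_sub_cancel] at this
        linarith
      have b4 : |q' (X.f t g * E) - X.q (X.f t g)| ≤ K * nm E + ε := by
        have := abs_add_le (q' (X.f t g * E) - X.q (X.f t g * E)) (X.q (X.f t g * E) - X.q (X.f t g))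
        rw [sub_add_sub_cancel] at this
        linarith
      have hB := CLO_bound E (X.p (X.f t g)) (X.q (X.f t g)) (p' (X.f t g * E)) (q' (X.f t g * E)) (K + 1) (K + 1)
        (K * nm E + ε) (by linarith) b1 (by linarith) b2 b3 b4
      refine hB.trans ?_
      have hc : K + 1 + 2 * (K + 1) + K = κ := by rw [hκ]; ring
      rw [← hc]
      apply le_of_eq
      ring
  -- the averages
  have hc1 : Continuous (fun t => h (X.f t g)) := hh.cont.comp (CLO_orbit_cont hf g)
  have hc2 : Continuous (fun t => h (f' t g)) := hh.cont.comp (CLO_orbit_cont hf' g)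
  have hpt : ∀ t ∈ Set.uIoc (0 : ℝ) T, ‖h (f' t g) - h (X.f t g)‖ ≤ e := by
    intro t ht
    rw [Set.uIoc_of_le hT.le] at ht
    have ht' : t ∈ Icc 0 T := ⟨ht.1.le, ht.2⟩
    have e1 : f' t g = X.f t g * ((X.f t g)⁻¹ * f' t g) := by group
    rw [Real.norm_eq_abs, e1]
    refine (hh.lip _ _).trans ?_
    have e2 := hnm t ht'
    have e3 : Real.exp (κ * t) ≤ Real.exp (κ * T) := Real.exp_le_exp.2 (mul_le_mul_of_nonneg_left ht.2 (by linarith))
    have e4 : nm ((X.f t g)⁻¹ * f' t g) ≤ ε * Real.exp (κ * T) := by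
      have e5 : ε / κ ≤ ε := div_le_self hε0.le hκ1
      have e6 : 0 ≤ Real.exp (κ * t) - 1 := by
        have := Real.add_one_le_exp (κ * t)
        have : 0 ≤ κ * t := mul_nonneg (by linarith) ht.1.le
        linarith
      refine e2.trans ((mul_le_mul_of_nonneg_right e5 e6).trans ?_)
      exact mul_le_mul_of_nonneg_left (by linarith) hε0.le
    calc L * nm ((X.f t g)⁻¹ * f' t g) ≤ L * (ε * Real.exp (κ * T)) := mul_le_mul_of_nonneg_left e4 hL
      _ ≤ e := by nlinarith
  unfold avf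
  rw [← mul_sub, ← intervalIntegral.integral_sub (hc2.intervalIntegrable _ _) (hc1.intervalIntegrable _ _), abs_mul]
  have h5 := intervalIntegral.norm_integral_le_of_norm_le_const hpt
  rw [Real.norm_eq_abs, sub_zero, abs_of_pos hT] at h5
  rw [abs_of_pos (inv_pos.2 hT)]
  calc T⁻¹ * |∫ t in (0 : ℝ)..T, (h (f' t g) - h (X.f t g))| ≤ T⁻¹ * (e * T) :=
        mul_le_mul_of_nonneg_left h5 (inv_pos.2 hT).le
    _ = e := by field_simp

end

end Pool.Agent.VNE
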