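import Pool.Agent.helper62.VN.SpecE
import Pool.Agent.helper68.VQE.MSR

/-! # Row vne:NMR of MP_07c750_an (ergodicity) -/

set_option autoImplicit false

open scoped MatrixGroups ContDiff Topology UpperHalfPlane
open UpperHalfPlane MeasureTheory Filter Set

namespace Pool.Agent.VNE

open Pool.Agent.RS Pool.Agent.VQE

noncomputable section

theorem NMR_proof (h1 : VQE.VNE_stmt) (h2 : NHO_stmt) (h3 : NHC_stmt) (h4 : VQE.RDM_stmt) : NMR_stmt := by
  intro K Γ F L X h hK hΓ hN hL hH hf hT
  haveI : SecondCountableTopology SL(2, ℝ) := MSR_secondCountable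
  have hRDM := h4
  obtain ⟨⟨hdm, -, hfin, -⟩, -⟩ := MSR_GFD Γ F hΓ hN
  haveI : IsFiniteMeasure (mG.restrict (dG F)) := ⟨by rwa [Measure.restrict_apply_univ]⟩
  obtain ⟨u, ns, hu, hns, hae, hL2⟩ := h1 Γ F X.p X.q X.f h L hΓ hN hf hT
  obtain ⟨r0, hr0, hr1⟩ := h2 K hK
  have h2' := hr1 Γ L X h u ns hL hH hf hT hu hns hae
  obtain ⟨c, hc⟩ := h3 r0 u hr0 hu h2'
  have h3 : ∀ n : ℕ, ∫ g in dG F, (avf X.f h n g - u g) ^ 2 ∂mG = ∫ g in dG F, (avf X.f h n g - c) ^ 2 ∂mG := by
    intro n
    refine integral_congr_ae ?_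
    have h4 := ae_restrict_of_ae (s := dG F) hc
    filter_upwards [h4] with g hg
    rw [hg]
  have h5 : Tendsto (fun n : ℕ => ∫ g in dG F, (avf X.f h n g - c) ^ 2 ∂mG) atTop (𝓝 0) := by
    simpa only [h3] using hL2
  have hI : ∀ n : ℕ, 1 ≤ n → ∀ k : ℝ, Integrable (fun g => (avf X.f h n g - k)) (mG.restrict (dG F)) ∧
      Integrable (fun g => (avf X.f h n g - k) ^ 2) (mG.restrict (dG F)) := by
    intro n hn k
    have hn' : (0 : ℝ) < n := by exact_mod_cast hn
    have hcn : Continuous (fun g => avf X.f h n g - k) := (MSR_cont hf.toFlw hT n).sub continuous_const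
    have hb : ∀ g, |avf X.f h n g - k| ≤ 1 + |k| := fun g =>
      (abs_sub _ _).trans (by have := MSR_bound (p := X.p) (q := X.q) (f := X.f) hT n hn' g; linarith)
    refine ⟨Integrable.of_bound hcn.measurable.aestronglyMeasurable (1 + |k|) (Eventually.of_forall fun g => ?_),
      Integrable.of_bound (hcn.pow 2).measurable.aestronglyMeasurable ((1 + |k|) ^ 2) (Eventually.of_forall fun g => ?_)⟩
    · rw [Real.norm_eq_abs]
      exact hb g
    · rw [Real.norm_eq_abs, abs_pow]
      exact pow_le_pow_left₀ (abs_nonneg _) (hb g) 2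
  have hle : ∀ n : ℕ, 1 ≤ n → ∫ g in dG F, (avf X.f h n g - mnG F h) ^ 2 ∂mG ≤ ∫ g in dG F, (avf X.f h n g - c) ^ 2 ∂mG := by
    intro n hn
    have hn' : (0 : ℝ) < n := by exact_mod_cast hn
    set μ0 := mnG F h with hμ0
    have h6 : ∀ g, (avf X.f h n g - c) ^ 2 = ((avf X.f h n g - μ0) ^ 2 + 2 * (μ0 - c) * (avf X.f h n g - μ0)) + (μ0 - c) ^ 2 := by
      intro g
      ring
    have h7 : ∫ g in dG F, (avf X.f h n g - μ0) ∂mG = 0 := by
      have h8 : Integrable (fun g => avf X.f h n g) (mG.restrict (dG F)) := by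
        have := (hI n hn 0).1
        simpa using this
      rw [integral_sub h8 (integrable_const _), MSR_mean hRDM hΓ hN hf hT n hn', integral_const]
      have h9 : (mG.restrict (dG F)).real univ = (mG (dG F)).toReal := by
        rw [Measure.real, Measure.restrict_apply_univ]
      rw [h9, smul_eq_mul, hμ0]
      unfold mnG
      by_cases h10 : (mG (dG F)).toReal = 0
      · rw [h10]
        have h11 : mG (dG F) = 0 := by
          rcases (ENNReal.toReal_eq_zero_iff _).1 h10 with h12 | h12
          · exact h12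
          · exact absurd h12 hfin.ne
        rw [Measure.restrict_eq_zero.2 h11]
        simp
      · rw [mul_div_cancel₀ _ h10, sub_self]
    simp only [h6]
    rw [integral_add, integral_add, integral_const_mul, h7, mul_zero, add_zero]
    · have h13 : 0 ≤ ∫ g in dG F, (μ0 - c) ^ 2 ∂mG := integral_nonneg fun g => sq_nonneg _
      linarith
    · exact (hI n hn μ0).2
    · exact (hI n hn μ0).1.const_mul _
    · exact (hI n hn μ0).2.add ((hI n hn μ0).1.const_mul _)
    · exact integrable_const _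
  unfold MSC
  refine squeeze_zero' (Eventually.of_forall fun n => integral_nonneg fun g => sq_nonneg _) ?_ h5
  filter_upwards [eventually_ge_atTop 1] with n hn
  exact hle n hn

end

end Pool.Agent.VNE
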